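import Pool.Agent.H30.BV.Targets

/-!
# The linear part of Vaughan's identity (module T1 of bv_modules)
-/

set_option autoImplicit false

namespace Pool.Agent.H4.BV

open Finset ArithmeticFunction
open scoped ArithmeticFunction.Moebius ArithmeticFunction.zeta
open Pool.Agent.H27.LS Pool.Agent.H30.BV

lemma t1_shift {f : ℕ → ℂ} {B : ℝ} (h0 : f 0 = 0)
    (hB : ∀ M, ‖∑ n ∈ range M, f n‖ ≤ B) (M : ℕ) :
    ‖∑ n ∈ range M, f (n + 1)‖ ≤ B := by
  have h := hB (M + 1)
  rwa [Finset.sum_range_succ', h0, add_zero] at h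

/-- smooth sum, weight `hat` -/
lemma t1_a {f : ℕ → ℂ} {B : ℝ} (h0 : f 0 = 0) (hB : ∀ M, ‖∑ n ∈ range M, f n‖ ≤ B) {d : ℕ}
    (hd : 0 < d) {X : ℝ} (hX : 0 < X) {N : ℕ} (hN : Real.exp 1 * X ≤ N) :
    ‖∑ m ∈ range (N + 1), f m * (hat (Real.log (d * m / X)) : ℝ)‖ ≤ 2 * B := by
  have hB0 : 0 ≤ B := (norm_nonneg _).trans (hB 0)
  have hd' : (1 : ℝ) ≤ d := by exact_mod_cast hd
  rw [Finset.sum_range_succ', h0, zero_mul, add_zero]
  have h1 := abel_bound (f := fun n => f (n + 1))
    (g := fun n => hat (Real.log (d * (n + 1 : ℕ) / X))) (t1_shift h0 hB) N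
  refine h1.trans ?_
  have h2 : hat (Real.log (d * (N + 1 : ℕ) / X)) = 0 := by
    apply hat_eq_zero
    have h3 : 1 ≤ Real.log (d * (N + 1 : ℕ) / X) := by
      rw [Real.le_log_iff_exp_le (by positivity), le_div_iff₀ hX]
      push_cast
      nlinarith
    exact h3.trans (le_abs_self _)
  rw [h2, abs_zero, zero_add, mul_comm 2]
  refine mul_le_mul_of_nonneg_left ?_ hB0
  refine le_trans (Finset.sum_le_sum fun n _ => abs_hat_sub_le (log_mono_aux hd hX n)) ?_
  exact sum_clamp_le (fun n => Real.log (d * (n + 1 : ℕ) / X)) N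

/-- smooth sum, weight `log · hat` -/
lemma t1_b {f : ℕ → ℂ} {B : ℝ} (h0 : f 0 = 0) (hB : ∀ M, ‖∑ n ∈ range M, f n‖ ≤ B) {d : ℕ}
    (hd : 0 < d) {X : ℝ} (hX : 0 < X) {N : ℕ} (hN : Real.exp 1 * X ≤ N) :
    ‖∑ m ∈ range (N + 1), f m * ((Real.log m * hat (Real.log (d * m / X)) : ℝ) : ℂ)‖ ≤
      3 * Real.log (N + 1) * B := by
  have hB0 : 0 ≤ B := (norm_nonneg _).trans (hB 0)
  have hd' : (1 : ℝ) ≤ d := by exact_mod_cast hd
  rw [Finset.sum_range_succ', h0, zero_mul, add_zero]
  have h1 := abel_bound (f := fun n => f (n + 1))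
    (g := fun n => Real.log (n + 1 : ℕ) * hat (Real.log (d * (n + 1 : ℕ) / X)))
    (t1_shift h0 hB) N
  refine h1.trans ?_
  have h2 : hat (Real.log (d * (N + 1 : ℕ) / X)) = 0 := by
    apply hat_eq_zero
    have h3 : 1 ≤ Real.log (d * (N + 1 : ℕ) / X) := by
      rw [Real.le_log_iff_exp_le (by positivity), le_div_iff₀ hX]
      push_cast
      nlinarith
    exact h3.trans (le_abs_self _)
  rw [h2, mul_zero, abs_zero, zero_add, mul_comm (3 * _)]
  refine mul_le_mul_of_nonneg_left ?_ hB0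
  have hL : 0 ≤ Real.log (N + 1) := Real.log_nonneg (by linarith [Nat.cast_nonneg (α := ℝ) N])
  have h4 : ∀ n ∈ range N, |Real.log (n + 1 : ℕ) * hat (Real.log (d * (n + 1 : ℕ) / X)) -
      Real.log (n + 1 + 1 : ℕ) * hat (Real.log (d * (n + 1 + 1 : ℕ) / X))| ≤
      (Real.log (n + 1 + 1 : ℕ) - Real.log (n + 1 : ℕ)) + Real.log (N + 1) *
        (clamp (Real.log (d * (n + 1 + 1 : ℕ) / X)) - clamp (Real.log (d * (n + 1 : ℕ) / X))) := by
    intro n hn
    set u := Real.log (d * (n + 1 : ℕ) / X)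
    set v := Real.log (d * (n + 1 + 1 : ℕ) / X)
    have h5 : Real.log (n + 1 : ℕ) * hat u - Real.log (n + 1 + 1 : ℕ) * hat v =
        Real.log (n + 1 : ℕ) * (hat u - hat v) -
          (Real.log (n + 1 + 1 : ℕ) - Real.log (n + 1 : ℕ)) * hat v := by ring
    have h6 : 0 ≤ Real.log (n + 1 + 1 : ℕ) - Real.log (n + 1 : ℕ) := by
      have : Real.log (n + 1 : ℕ) ≤ Real.log (n + 1 + 1 : ℕ) := by
        apply Real.log_le_log (by positivity)
        push_cast; linarith
      linarith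
    have h7 : 0 ≤ Real.log (n + 1 : ℕ) :=
      Real.log_nonneg (by push_cast; linarith [Nat.cast_nonneg (α := ℝ) n])
    have h8 : Real.log (n + 1 : ℕ) ≤ Real.log (N + 1) := by
      apply Real.log_le_log (by positivity)
      have : (n : ℝ) < N := by exact_mod_cast Finset.mem_range.1 hn
      push_cast; linarith
    rw [h5]
    refine (abs_sub _ _).trans ?_
    rw [abs_mul, abs_mul, abs_of_nonneg h7, abs_of_nonneg h6, abs_of_nonneg (hat_nonneg v), add_comm]
    refine add_le_add ?_ ?_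
    · exact mul_le_of_le_one_right h6 (hat_le_one v)
    · exact mul_le_mul h8 (abs_hat_sub_le (log_mono_aux hd hX n)) (abs_nonneg _) hL
  refine (Finset.sum_le_sum h4).trans ?_
  rw [Finset.sum_add_distrib, Finset.sum_range_sub (fun n => Real.log (n + 1 : ℕ)),
    ← Finset.mul_sum]
  have h9 := sum_clamp_le (fun n => Real.log (d * (n + 1 : ℕ) / X)) N
  have h10 : Real.log (N + 1) * ∑ i ∈ range N,
      (clamp (Real.log (d * (i + 1 + 1 : ℕ) / X)) - clamp (Real.log (d * (i + 1 : ℕ) / X))) ≤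
      Real.log (N + 1) * 2 := mul_le_mul_of_nonneg_left h9 hL
  have h11 : Real.log ((0 : ℕ) + 1 : ℕ) = 0 := by simp
  rw [h11]
  push_cast at h10 ⊢
  linarith

/-- the weight attached to a function -/
noncomputable def t1w (X : ℝ) (f : ℕ → ℂ) (m l : ℕ) : ℂ :=
  f (m * l) * (hat (Real.log (m * l / X)) : ℝ)

variable {f : ℕ → ℂ} {B : ℝ}

lemma t1_S2 (hf1 : ∀ n, ‖f n‖ ≤ 1) (h0 : f 0 = 0) (hmul : ∀ m l, f (m * l) = f m * f l)
    (hB : ∀ M, ‖∑ n ∈ range M, f n‖ ≤ B) {X : ℝ} (hX : 0 < X) {N : ℕ} (hN : 3 * X ≤ N) (U : ℕ) :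
    ‖∑ m ∈ range (N + 1), ∑ l ∈ range (N + 1),
      (cut U (μ : ArithmeticFunction ℝ) m : ℂ) * (ArithmeticFunction.log l : ℂ) * t1w X f m l‖ ≤
      U * (3 * Real.log (N + 1) * B) := by
  have hB0 : 0 ≤ B := (norm_nonneg _).trans (hB 0)
  have hNe : Real.exp 1 * X ≤ N := by
    have := Real.exp_one_lt_d9
    nlinarith
  have hL : 0 ≤ Real.log (N + 1) := Real.log_nonneg (by linarith [Nat.cast_nonneg (α := ℝ) N])
  have h1 : ∀ m, ‖∑ l ∈ range (N + 1),
      (cut U (μ : ArithmeticFunction ℝ) m : ℂ) * (ArithmeticFunction.log l : ℂ) * t1w X f m l‖ ≤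
      if m ∈ Icc 1 U then 3 * Real.log (N + 1) * B else 0 := by
    intro m
    split_ifs with hm
    · rw [mem_Icc] at hm
      have h2 : ∑ l ∈ range (N + 1),
          (cut U (μ : ArithmeticFunction ℝ) m : ℂ) * (ArithmeticFunction.log l : ℂ) * t1w X f m l =
          (cut U (μ : ArithmeticFunction ℝ) m : ℂ) * f m * ∑ l ∈ range (N + 1),
            f l * ((Real.log l * hat (Real.log (m * l / X)) : ℝ) : ℂ) := by
        rw [Finset.mul_sum]
        refine Finset.sum_congr rfl fun l _ => ?_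
        rw [t1w, hmul, ArithmeticFunction.log_apply]
        push_cast
        ring
      rw [h2, norm_mul, norm_mul, Complex.norm_real]
      have h3 := t1_b h0 hB hm.1 hX hNe
      have h4 : ‖cut U (μ : ArithmeticFunction ℝ) m‖ * ‖f m‖ ≤ 1 := by
        have h5 := abs_cut_moebius_le U m
        rw [Real.norm_eq_abs]
        exact mul_le_one₀ h5 (norm_nonneg _) (hf1 m)
      calc _ ≤ 1 * (3 * Real.log (N + 1) * B) :=
            mul_le_mul h4 h3 (norm_nonneg _) zero_le_one
        _ = _ := one_mul _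
    · have h2 : cut U (μ : ArithmeticFunction ℝ) m = 0 := by
        rw [mem_Icc, not_and_or] at hm
        rcases hm with hm | hm
        · have : m = 0 := by omega
          subst this
          exact ArithmeticFunction.map_zero
        · exact cut_eq_zero (by omega) _
      rw [h2]
      simp
  refine (norm_sum_le _ _).trans ((Finset.sum_le_sum fun m _ => h1 m).trans ?_)
  rw [← Finset.sum_filter, Finset.sum_const, nsmul_eq_mul]
  gcongr
  calc ((range (N + 1)).filter (fun m => m ∈ Icc 1 U)).card ≤ (Icc 1 U).card :=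
        Finset.card_le_card fun m hm => (mem_filter.1 hm).2
    _ = U := by simp

lemma t1_S3 (hf1 : ∀ n, ‖f n‖ ≤ 1) (h0 : f 0 = 0) (hmul : ∀ m l, f (m * l) = f m * f l)
    (hB : ∀ M, ‖∑ n ∈ range M, f n‖ ≤ B) {X : ℝ} (hX : 0 < X) {N : ℕ} (hN : 3 * X ≤ N) (U : ℕ) :
    ‖∑ m ∈ range (N + 1), ∑ l ∈ range (N + 1),
      ((cut U (μ : ArithmeticFunction ℝ) * cut U Λ) m : ℂ) *
        ((ζ : ArithmeticFunction ℝ) l : ℂ) * t1w X f m l‖ ≤
      (U * U : ℕ) * (Real.log (N + 1) * (2 * B)) := by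
  have hB0 : 0 ≤ B := (norm_nonneg _).trans (hB 0)
  have hNe : Real.exp 1 * X ≤ N := by
    have := Real.exp_one_lt_d9
    nlinarith
  have hL : 0 ≤ Real.log (N + 1) := Real.log_nonneg (by linarith [Nat.cast_nonneg (α := ℝ) N])
  have h1 : ∀ m ∈ range (N + 1), ‖∑ l ∈ range (N + 1),
      ((cut U (μ : ArithmeticFunction ℝ) * cut U Λ) m : ℂ) *
        ((ζ : ArithmeticFunction ℝ) l : ℂ) * t1w X f m l‖ ≤
      if m ∈ Icc 1 (U * U) then Real.log (N + 1) * (2 * B) else 0 := by
    intro m hmN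
    split_ifs with hm
    · rw [mem_Icc] at hm
      have h2 : ∑ l ∈ range (N + 1),
          ((cut U (μ : ArithmeticFunction ℝ) * cut U Λ) m : ℂ) *
            ((ζ : ArithmeticFunction ℝ) l : ℂ) * t1w X f m l =
          ((cut U (μ : ArithmeticFunction ℝ) * cut U Λ) m : ℂ) * f m * ∑ l ∈ range (N + 1),
            f l * (hat (Real.log (m * l / X)) : ℝ) := by
        rw [Finset.mul_sum]
        refine Finset.sum_congr rfl fun l _ => ?_
        rw [t1w, hmul]
        rcases Nat.eq_zero_or_pos l with rfl | hl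
        · rw [h0]; simp
        · have : ((ζ : ArithmeticFunction ℝ) l) = 1 := by
            rw [ArithmeticFunction.natCoe_apply, ArithmeticFunction.zeta_apply, if_neg hl.ne']
            simp
          rw [this]
          push_cast
          ring
      rw [h2, norm_mul, norm_mul, Complex.norm_real]
      have h3 := t1_a h0 hB hm.1 hX hNe
      have h4 : ‖(cut U (μ : ArithmeticFunction ℝ) * cut U Λ) m‖ * ‖f m‖ ≤
          Real.log (N + 1) := by
        have h5 := abs_conv_le U U m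
        rw [Real.norm_eq_abs]
        have h7 : Real.log m ≤ Real.log (N + 1) := by
          apply Real.log_le_log (by exact_mod_cast hm.1)
          exact_mod_cast (mem_range.1 hmN).le
        calc _ ≤ Real.log (N + 1) * 1 :=
              mul_le_mul (h5.trans h7) (hf1 m) (norm_nonneg _) hL
          _ = _ := mul_one _
      exact mul_le_mul h4 h3 (norm_nonneg _) hL
    · have h2 : (cut U (μ : ArithmeticFunction ℝ) * cut U Λ) m = 0 := by
        rw [mem_Icc, not_and_or] at hm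
        rcases hm with hm | hm
        · have : m = 0 := by omega
          subst this
          exact ArithmeticFunction.map_zero
        · exact conv_eq_zero (by omega)
      rw [h2]
      simp
  refine (norm_sum_le _ _).trans ((Finset.sum_le_sum h1).trans ?_)
  rw [← Finset.sum_filter, Finset.sum_const, nsmul_eq_mul]
  gcongr
  calc ((range (N + 1)).filter (fun m => m ∈ Icc 1 (U * U))).card ≤ (Icc 1 (U * U)).card :=
        Finset.card_le_card fun m hm => (mem_filter.1 hm).2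
    _ = U * U := by simp

/-- Vaughan's identity for `TX` -/
lemma t1_eq {X : ℝ} (hX : 0 < X) {U : ℕ} (hU : 3 * (U : ℝ) ≤ X) (f : ℕ → ℂ) :
    TX X f =
      (∑ m ∈ range (NX X + 1), ∑ l ∈ range (NX X + 1),
        (cut U (μ : ArithmeticFunction ℝ) m : ℂ) * (ArithmeticFunction.log l : ℂ) * t1w X f m l)
      - (∑ m ∈ range (NX X + 1), ∑ l ∈ range (NX X + 1),
        ((cut U (μ : ArithmeticFunction ℝ) * cut U Λ) m : ℂ) *
          ((ζ : ArithmeticFunction ℝ) l : ℂ) * t1w X f m l)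
      + ∑ m ∈ range (NX X + 1), ∑ l ∈ range (NX X + 1),
        (muGT U m : ℂ) * (gam U l : ℂ) * t1w X f m l := by
  have hN : 3 * X ≤ (NX X : ℝ) := Nat.le_ceil _
  set N : ℕ := NX X with hNdef
  set g : ℕ → ℂ := fun n => f n * (hat (Real.log (n / X)) : ℝ) with hg
  have hg0 : ∀ n, N < n → g n = 0 := by
    intro n hn
    have h1 : (N : ℝ) ≤ n := by exact_mod_cast hn.le
    rw [hg]
    simp only []
    rw [hat_log_eq_zero_of_ge hX (hN.trans h1)]
    simp
  have hgw : ∀ m l : ℕ, g (m * l) = t1w X f m l := by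
    intro m l
    rw [hg, t1w]
    push_cast
    rfl
  have h1 : TX X f = ∑ n ∈ Icc 1 N, (Λ n : ℂ) * g n := by
    unfold TX wx
    rw [← hNdef]
    refine Finset.sum_congr rfl fun n _ => ?_
    simp only [hg]
    push_cast
    ring
  have h2 : ∀ n, (Λ n : ℂ) * g n = (cut U Λ n : ℂ) * g n +
      (((cut U (μ : ArithmeticFunction ℝ) * ArithmeticFunction.log) n : ℝ) : ℂ) * g n -
      ((((cut U (μ : ArithmeticFunction ℝ) * cut U Λ) * (ζ : ArithmeticFunction ℝ)) n : ℝ) : ℂ) * g n
      + (((muGT U * gam U) n : ℝ) : ℂ) * g n := by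
    intro n
    have hs : ∀ (f h : ArithmeticFunction ℝ) (n : ℕ), (f - h) n = f n - h n := fun _ _ _ => rfl
    conv_lhs => rw [vaughan U U]
    simp only [ArithmeticFunction.add_apply, hs]
    push_cast
    ring
  have h3 : ∑ n ∈ Icc 1 N, (cut U Λ n : ℂ) * g n = 0 := by
    refine Finset.sum_eq_zero fun n hn => ?_
    rw [mem_Icc] at hn
    by_cases hnU : n ≤ U
    · have h4 : hat (Real.log (n / X)) = 0 := by
        apply hat_log_eq_zero_of_le hX (by exact_mod_cast hn.1)
        have : (n : ℝ) ≤ U := by exact_mod_cast hnU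
        linarith
      rw [hg]
      simp [h4]
    · rw [cut_eq_zero (by omega)]
      simp
  rw [h1, Finset.sum_congr rfl fun n _ => h2 n, Finset.sum_add_distrib, Finset.sum_sub_distrib,
    Finset.sum_add_distrib, h3, zero_add, sum_conv _ _ g N hg0, sum_conv _ _ g N hg0,
    sum_conv _ _ g N hg0]
  simp only [hgw]

theorem t1 : T_T1 := by
  intro f B hf1 h0 hmul hB U X hU hX hUX
  have hX0 : 0 < X := by linarith
  have hN : 3 * X ≤ (NX X : ℝ) := Nat.le_ceil _
  have hB0 : 0 ≤ B := (norm_nonneg _).trans (hB 0)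
  have hL : 0 ≤ Real.log (NX X + 1) :=
    Real.log_nonneg (by linarith [Nat.cast_nonneg (α := ℝ) (NX X)])
  have hU1 : (1 : ℝ) ≤ U := by exact_mod_cast hU
  have e : ∀ m l, (muGT U m : ℂ) * (gam U l : ℂ) *
      (f (m * l) * ((hat (Real.log (m * l / X)) : ℝ) : ℂ)) =
      (muGT U m : ℂ) * (gam U l : ℂ) * t1w X f m l := fun m l => rfl
  simp only [e]
  rw [t1_eq hX0 hUX f, add_sub_cancel_right]
  refine (norm_sub_le _ _).trans ?_
  have h2 := t1_S2 hf1 h0 hmul hB hX0 hN U
  have h3 := t1_S3 hf1 h0 hmul hB hX0 hN U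
  refine (add_le_add h2 h3).trans ?_
  have h4 : (U : ℝ) * (3 * Real.log (NX X + 1) * B) ≤
      (U * U) * (3 * Real.log (NX X + 1) * B) := by
    apply mul_le_mul_of_nonneg_right _ (by positivity)
    nlinarith
  push_cast
  nlinarith

end Pool.Agent.H4.BV
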