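import Pool.Agent.H30.BV.Targets

/-!
# Bilinear sums over a family with the large sieve inequality (module T2 of bv_modules)
-/

set_option autoImplicit false

namespace Pool.Agent.H4.BV

open Finset Complex
open Pool.Agent.H27.LS Pool.Agent.H30.BV

/-- bilinear form with a cosine weight -/
noncomputable def bilf (f a b : ℕ → ℂ) (N1 N2 : ℕ) (X φ : ℝ) : ℂ :=
  ∑ m ∈ range N1, ∑ l ∈ range N2,
    a m * b l * f (m * l) * (Real.cos (φ * Real.log (m * l / X)) : ℝ)

lemma norm_bilf_le (f : ℕ → ℂ) (hf : ∀ m l : ℕ, f (m * l) = f m * f l)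
    (a b : ℕ → ℂ) (N1 N2 : ℕ) {X : ℝ} (hX : 0 < X) (φ : ℝ)
    (h : ∀ m ∈ range N1, ∀ l ∈ range N2, a m ≠ 0 → b l ≠ 0 → 0 < m ∧ 0 < l) :
    ‖bilf f a b N1 N2 X φ‖ ≤
      1 / 2 * (‖∑ m ∈ range N1, tw φ a m * f m‖ * ‖∑ l ∈ range N2, tw φ b l * f l‖) +
      1 / 2 * (‖∑ m ∈ range N1, tw (-φ) a m * f m‖ *
        ‖∑ l ∈ range N2, tw (-φ) b l * f l‖) := by
  have h1 : bilf f a b N1 N2 X φ =
      exp ((-(φ * Real.log X) : ℝ) * I) / 2 *
        ((∑ m ∈ range N1, tw φ a m * f m) * (∑ l ∈ range N2, tw φ b l * f l)) +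
      exp ((φ * Real.log X : ℝ) * I) / 2 *
        ((∑ m ∈ range N1, tw (-φ) a m * f m) * (∑ l ∈ range N2, tw (-φ) b l * f l)) := by
    rw [bilf, Finset.sum_mul_sum, Finset.sum_mul_sum, Finset.mul_sum, Finset.mul_sum,
      ← Finset.sum_add_distrib]
    refine Finset.sum_congr rfl fun m hm => ?_
    rw [Finset.mul_sum, Finset.mul_sum, ← Finset.sum_add_distrib]
    refine Finset.sum_congr rfl fun l hl => ?_
    by_cases ha : a m = 0
    · simp [tw, ha]
    by_cases hb : b l = 0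
    · simp [tw, hb]
    obtain ⟨hm0, hl0⟩ := h m hm l hl ha hb
    have hm1 : (m : ℝ) ≠ 0 := by positivity
    have hl1 : (l : ℝ) ≠ 0 := by positivity
    have h2 : Real.log (m * l / X) = Real.log m + Real.log l - Real.log X := by
      rw [Real.log_div (by positivity) hX.ne', Real.log_mul hm1 hl1]
    have h3 : ((Real.cos (φ * Real.log (m * l / X)) : ℝ) : ℂ) =
        (exp ((-(φ * Real.log X) : ℝ) * I) * exp ((φ * Real.log m : ℝ) * I) *
          exp ((φ * Real.log l : ℝ) * I) +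
        exp ((φ * Real.log X : ℝ) * I) * exp ((-φ * Real.log m : ℝ) * I) *
          exp ((-φ * Real.log l : ℝ) * I)) / 2 := by
      rw [h2, Complex.ofReal_cos, Complex.cos, ← Complex.exp_add, ← Complex.exp_add,
        ← Complex.exp_add, ← Complex.exp_add]
      congr 3
      · push_cast; ring
      · push_cast; ring
    rw [h3]
    simp only [tw]
    rw [hf]
    ring
  rw [h1]
  refine (norm_add_le _ _).trans (le_of_eq ?_)
  rw [norm_mul, norm_mul, norm_mul, norm_mul, norm_div, norm_div,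
    Complex.norm_exp_ofReal_mul_I, Complex.norm_exp_ofReal_mul_I]
  simp

variable {ι : Type} {C : Finset ι} {f : ι → ℕ → ℂ} {K : ℝ}

lemma sum_bilf_le (hLS : LSI C f K) (hf : ∀ x ∈ C, ∀ m l : ℕ, f x (m * l) = f x m * f x l)
    (a b : ℕ → ℂ) (N1 N2 : ℕ) {X : ℝ} (hX : 0 < X) (φ : ℝ)
    (h : ∀ m ∈ range N1, ∀ l ∈ range N2, a m ≠ 0 → b l ≠ 0 → 0 < m ∧ 0 < l) :
    ∑ x ∈ C, ‖bilf (f x) a b N1 N2 X φ‖ ≤
      √((K ^ 2 + 4 * Real.pi * N1) * ∑ n ∈ range N1, ‖a n‖ ^ 2) *
      √((K ^ 2 + 4 * Real.pi * N2) * ∑ n ∈ range N2, ‖b n‖ ^ 2) := by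
  have h1 : ∀ φ' : ℝ, ∑ x ∈ C, ‖∑ m ∈ range N1, tw φ' a m * f x m‖ *
      ‖∑ l ∈ range N2, tw φ' b l * f x l‖ ≤
      √((K ^ 2 + 4 * Real.pi * N1) * ∑ n ∈ range N1, ‖a n‖ ^ 2) *
      √((K ^ 2 + 4 * Real.pi * N2) * ∑ n ∈ range N2, ‖b n‖ ^ 2) := by
    intro φ'
    refine (Real.sum_mul_le_sqrt_mul_sqrt _ _ _).trans ?_
    have h2 := hLS N1 (tw φ' a)
    have h3 := hLS N2 (tw φ' b)
    simp only [norm_tw] at h2 h3
    gcongr
  calc _ ≤ ∑ x ∈ C, (1 / 2 * (‖∑ m ∈ range N1, tw φ a m * f x m‖ *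
        ‖∑ l ∈ range N2, tw φ b l * f x l‖) +
      1 / 2 * (‖∑ m ∈ range N1, tw (-φ) a m * f x m‖ *
        ‖∑ l ∈ range N2, tw (-φ) b l * f x l‖)) :=
        Finset.sum_le_sum fun x hx => norm_bilf_le (f x) (hf x hx) a b N1 N2 hX φ h
    _ = 1 / 2 * (∑ x ∈ C, ‖∑ m ∈ range N1, tw φ a m * f x m‖ *
        ‖∑ l ∈ range N2, tw φ b l * f x l‖) +
      1 / 2 * (∑ x ∈ C, ‖∑ m ∈ range N1, tw (-φ) a m * f x m‖ *
        ‖∑ l ∈ range N2, tw (-φ) b l * f x l‖) := by
        rw [Finset.sum_add_distrib, Finset.mul_sum, Finset.mul_sum]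
    _ ≤ _ := by
        have := h1 φ
        have := h1 (-φ)
        linarith

/-- Type II estimate with the hat weight. -/
theorem type_two_f (hLS : LSI C f K) (hf : ∀ x ∈ C, ∀ m l : ℕ, f x (m * l) = f x m * f x l)
    (a b : ℕ → ℂ) (N1 N2 : ℕ) {X : ℝ} (hX : 0 < X)
    (h : ∀ m ∈ range N1, ∀ l ∈ range N2, a m ≠ 0 → b l ≠ 0 →
      0 < m ∧ 0 < l ∧ |Real.log (m * l / X)| ≤ 5) :
    ∑ x ∈ C, ‖∑ m ∈ range N1, ∑ l ∈ range N2,
      a m * b l * f x (m * l) * (hat (Real.log (m * l / X)) : ℝ)‖ ≤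
      √((K ^ 2 + 4 * Real.pi * N1) * ∑ n ∈ range N1, ‖a n‖ ^ 2) *
      √((K ^ 2 + 4 * Real.pi * N2) * ∑ n ∈ range N2, ‖b n‖ ^ 2) := by
  set D := √((K ^ 2 + 4 * Real.pi * N1) * ∑ n ∈ range N1, ‖a n‖ ^ 2) *
      √((K ^ 2 + 4 * Real.pi * N2) * ∑ n ∈ range N2, ‖b n‖ ^ 2) with hD
  have h0 : ∀ m ∈ range N1, ∀ l ∈ range N2, a m ≠ 0 → b l ≠ 0 → 0 < m ∧ 0 < l :=
    fun m hm l hl ha hb => ⟨(h m hm l hl ha hb).1, (h m hm l hl ha hb).2.1⟩
  set t : ℕ → ι → ℂ := fun k x => bilf (f x) a b N1 N2 X (k * (Real.pi / 3)) with ht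
  have h1 : ∀ x : ι, HasSum (fun k : ℕ => (cf k : ℂ) * t k x)
      (∑ m ∈ range N1, ∑ l ∈ range N2,
      a m * b l * f x (m * l) * (hat (Real.log (m * l / X)) : ℝ)) := by
    intro x
    have h2 : (fun k : ℕ => (cf k : ℂ) * t k x) = fun k : ℕ => ∑ m ∈ range N1, ∑ l ∈ range N2,
        (cf k : ℂ) * (a m * b l * f x (m * l) *
          (Real.cos (k * (Real.pi / 3) * Real.log (m * l / X)) : ℝ)) := by
      funext k
      simp only [ht, bilf, Finset.mul_sum]
    rw [h2]
    refine hasSum_sum fun m hm => hasSum_sum fun l hl => ?_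
    by_cases ha : a m = 0
    · simp [ha]
    by_cases hb : b l = 0
    · simp [hb]
    obtain ⟨_, _, h5⟩ := h m hm l hl ha hb
    have h3 := (Complex.hasSum_ofReal (f := fun k : ℕ =>
      cf k * Real.cos (k * (Real.pi / 3 * Real.log (m * l / X))))).2 (hat_hasSum h5)
    have h4 := h3.mul_left (a m * b l * f x (m * l))
    have h5 : (fun k : ℕ => (cf k : ℂ) * (a m * b l * f x (m * l) *
        (Real.cos (k * (Real.pi / 3) * Real.log (m * l / X)) : ℝ))) =
        fun k : ℕ => a m * b l * f x (m * l) *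
          ((cf k * Real.cos (k * (Real.pi / 3 * Real.log (m * l / X))) : ℝ) : ℂ) := by
      funext k
      rw [mul_assoc (k : ℝ), Complex.ofReal_mul (cf k)]
      ring
    rw [h5]
    exact h4
  set B : ι → ℝ := fun x => ∑ m ∈ range N1, ∑ l ∈ range N2,
    ‖a m * b l * f x (m * l)‖ with hB
  have h6 : ∀ x k, ‖t k x‖ ≤ B x := by
    intro x k
    simp only [ht, bilf, hB]
    refine (norm_sum_le _ _).trans (Finset.sum_le_sum fun m _ => ?_)
    refine (norm_sum_le _ _).trans (Finset.sum_le_sum fun l _ => ?_)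
    rw [norm_mul]
    refine mul_le_of_le_one_right (norm_nonneg _) ?_
    rw [Complex.norm_real]
    exact Real.abs_cos_le_one _
  have h7 : ∀ x, Summable fun k => cf k * ‖t k x‖ := by
    intro x
    refine Summable.of_nonneg_of_le (fun k => mul_nonneg (cf_nonneg k) (norm_nonneg _))
      (fun k => mul_le_mul_of_nonneg_left (h6 x k) (cf_nonneg k)) (cf_hasSum.summable.mul_right _)
  have h8 : ∀ x, ‖∑ m ∈ range N1, ∑ l ∈ range N2,
      a m * b l * f x (m * l) * (hat (Real.log (m * l / X)) : ℝ)‖ ≤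
      ∑' k, cf k * ‖t k x‖ := by
    intro x
    rw [← (h1 x).tsum_eq]
    have h9 : ∀ k, ‖(cf k : ℂ) * t k x‖ = cf k * ‖t k x‖ := by
      intro k
      rw [norm_mul, Complex.norm_real, Real.norm_of_nonneg (cf_nonneg k)]
    refine (norm_tsum_le_tsum_norm ?_).trans (le_of_eq ?_)
    · simpa only [h9] using h7 x
    · exact tsum_congr h9
  calc _ ≤ ∑ x ∈ C, ∑' k, cf k * ‖t k x‖ := Finset.sum_le_sum fun x _ => h8 x
    _ = ∑' k, ∑ x ∈ C, cf k * ‖t k x‖ := (Summable.tsum_finsetSum fun x _ => h7 x).symm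
    _ ≤ ∑' k, cf k * D := by
        refine Summable.tsum_le_tsum (fun k => ?_) ?_ (cf_hasSum.summable.mul_right _)
        · rw [← Finset.mul_sum]
          exact mul_le_mul_of_nonneg_left (sum_bilf_le hLS hf a b N1 N2 hX _ h0) (cf_nonneg k)
        · exact summable_sum fun x _ => h7 x
    _ = D := by rw [tsum_mul_right, cf_hasSum.tsum_eq, one_mul]

/-- the weight attached to a function -/
noncomputable def wtf (X : ℝ) (f : ℕ → ℂ) (m l : ℕ) : ℂ :=
  f (m * l) * (hat (Real.log (m * l / X)) : ℝ)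

lemma wtf_eq_zero {X : ℝ} (hX : 0 < X) (f : ℕ → ℂ) (m l : ℕ) (hm : 0 < m) (hl : 0 < l)
    (h : 3 * X ≤ m * l ∨ 3 * (m * l : ℝ) ≤ X) : wtf X f m l = 0 := by
  unfold wtf
  rcases h with h | h
  · rw [hat_log_eq_zero_of_ge hX h]; simp
  · rw [hat_log_eq_zero_of_le hX (by positivity) h]; simp

/-- the bilinear part of Vaughan's identity, summed over the family -/
theorem t2 : T_T2 := by
  intro ι C f K hK0 hLS hf U X N hU hX hN
  have hX0 : 0 < X := by linarith
  have e : ∀ x m l, (muGT U m : ℂ) * (gam U l : ℂ) *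
      (f x (m * l) * ((hat (Real.log (m * l / X)) : ℝ) : ℂ)) =
      (muGT U m : ℂ) * (gam U l : ℂ) * wtf X (f x) m l := fun x m l => rfl
  calc _ ≤ ∑ x ∈ C, ∑ j ∈ range (Nat.log 2 N + 1),
        ‖∑ m ∈ range (2 ^ (j + 1)), ∑ l ∈ range (Nj X j),
          aj U j m * bj U j X l * wtf X (f x) m l‖ := by
        refine Finset.sum_le_sum fun x _ => ?_
        simp only [e]
        rw [outer_eq (wtf X (f x)) U hX0 hN (wtf_eq_zero hX0 (f x))]
        exact norm_sum_le _ _
    _ = ∑ j ∈ range (Nat.log 2 N + 1), ∑ x ∈ C,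
        ‖∑ m ∈ range (2 ^ (j + 1)), ∑ l ∈ range (Nj X j),
          aj U j m * bj U j X l * wtf X (f x) m l‖ :=
        Finset.sum_comm
    _ ≤ ∑ j ∈ range (Nat.log 2 N + 1),
        (4 * √X * Real.log (3 * X + 1) * (K ^ 2 + 16 * K * √(X / U) + 44 * √X)) := by
        refine Finset.sum_le_sum fun j _ => ?_
        refine le_trans ?_ (block_bound hK0 hU j hX)
        have h := type_two_f hLS hf (aj U j) (bj U j X) (2 ^ (j + 1)) (Nj X j) hX0 ?_
        · refine le_trans (le_of_eq ?_) h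
          refine Finset.sum_congr rfl fun x _ => ?_
          congr 1
          refine Finset.sum_congr rfl fun m _ => Finset.sum_congr rfl fun l _ => ?_
          rw [wtf]
          ring
        · intro m hm l hl ha hb
          have hm0 : 0 < m := by
            rcases Nat.eq_zero_or_pos m with rfl | h
            · exfalso; apply ha
              have : muGT U 0 = 0 := (muGT U).map_zero
              simp [aj, this]
            · exact h
          have hl0 : 0 < l := by
            rcases Nat.eq_zero_or_pos l with rfl | h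
            · exfalso; apply hb
              have : gam U 0 = 0 := (gam U).map_zero
              simp [bj, this]
            · exact h
          refine ⟨hm0, hl0, ?_⟩
          have hj : Nat.log 2 m = j := by
            by_contra h
            exact ha (if_neg h)
          have hbc : X / 6 ≤ 2 ^ j * l ∧ 2 ^ j * l ≤ 3 * X := by
            by_contra h
            exact hb (if_neg h)
          have hj1 : 2 ^ j ≤ m := by rw [← hj]; exact Nat.pow_log_le_self 2 hm0.ne'
          have hj2 : m < 2 ^ (j + 1) := by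
            rw [← hj]; exact Nat.lt_pow_succ_log_self (by norm_num) m
          have hj1' : (2 : ℝ) ^ j ≤ m := by exact_mod_cast hj1
          have hj2' : (m : ℝ) < 2 ^ (j + 1) := by exact_mod_cast hj2
          rw [pow_succ] at hj2'
          have hl' : (0 : ℝ) < l := by exact_mod_cast hl0
          have hm' : (0 : ℝ) < m := by exact_mod_cast hm0
          have h1 : X / 6 ≤ m * l := hbc.1.trans (by gcongr)
          have h2 : (m : ℝ) * l ≤ 6 * X := by nlinarith [hbc.2]
          have hl6 : Real.log 6 ≤ 5 := by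
            have := Real.log_le_sub_one_of_pos (x := 6) (by norm_num)
            linarith
          rw [abs_le]
          constructor
          · have h3 : Real.log (6⁻¹) ≤ Real.log (m * l / X) := by
              apply Real.log_le_log (by norm_num)
              rw [le_div_iff₀ hX0]
              linarith
            rw [Real.log_inv] at h3
            linarith
          · have h3 : Real.log (m * l / X) ≤ Real.log 6 := by
              apply Real.log_le_log (by positivity)
              rwa [div_le_iff₀ hX0]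
            linarith
    _ = _ := by simp

end Pool.Agent.H4.BV
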