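import Pool.Agent.H30.BV.Targets

/-!
# Fourier representation of the weight (module FT of bv_modules)
-/

set_option autoImplicit false

namespace Pool.Agent.H4.BV

open MeasureTheory Complex
open scoped FourierTransform Real
open Pool.Agent.H27.LS Pool.Agent.H30.BV

/-- the oscillating factor -/
noncomputable def ftE (t y : ℝ) : ℂ := Complex.exp (((-(t * y) : ℝ) : ℂ) * I)

lemma ftE_norm (t y : ℝ) : ‖ftE t y‖ = 1 := Complex.norm_exp_ofReal_mul_I _

lemma ftE_deriv (t y : ℝ) : HasDerivAt (ftE t) (ftE t y * (-(t : ℂ) * I)) y := by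
  have h1 : HasDerivAt (fun y : ℝ => -(t * y)) (-t) y := by
    have h2 := (hasDerivAt_id' y).const_mul (-t)
    have e : (fun y : ℝ => -(t * y)) = fun y => -t * y := by
      funext z
      ring
    rw [e]
    simpa using h2
  have h2 := (h1.ofReal_comp.mul_const I).cexp
  refine h2.congr_deriv ?_
  simp [ftE]

lemma ftE_cont (t : ℝ) : Continuous (ftE t) := by
  unfold ftE
  fun_prop

lemma ft_parts {φ φ' φ'' : ℝ → ℝ} {a b : ℝ} (hab : a ≤ b)
    (h1 : ∀ y ∈ Set.Icc a b, HasDerivAt φ (φ' y) y)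
    (h2 : ∀ y ∈ Set.Icc a b, HasDerivAt φ' (φ'' y) y)
    (h3 : ContinuousOn φ'' (Set.Icc a b)) (t : ℝ) :
    ∫ y in a..b, ((φ'' y + t ^ 2 * φ y : ℝ) : ℂ) * ftE t y =
      ((φ' b : ℂ) + t * φ b * I) * ftE t b - ((φ' a : ℂ) + t * φ a * I) * ftE t a := by
  have hc : ContinuousOn φ (Set.Icc a b) := fun y hy => (h1 y hy).continuousAt.continuousWithinAt
  have h4 : ∀ y ∈ Set.uIcc a b, HasDerivAt (fun y => ((φ' y : ℂ) + t * φ y * I) * ftE t y)
      (((φ'' y + t ^ 2 * φ y : ℝ) : ℂ) * ftE t y) y := by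
    intro y hy
    rw [Set.uIcc_of_le hab] at hy
    have h5 := ((h2 y hy).ofReal_comp.add (((h1 y hy).ofReal_comp.const_mul (t : ℂ)).mul_const
      I)).mul (ftE_deriv t y)
    refine h5.congr_deriv ?_
    simp only [Pi.add_apply]
    push_cast
    have hI : I * I = -1 := Complex.I_mul_I
    linear_combination (-(t : ℂ) ^ 2 * φ y * ftE t y) * hI
  refine intervalIntegral.integral_eq_sub_of_hasDerivAt h4 (ContinuousOn.intervalIntegrable ?_)
  rw [Set.uIcc_of_le hab]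
  refine ContinuousOn.mul ?_ (ftE_cont t).continuousOn
  exact Complex.continuous_ofReal.comp_continuousOn (h3.add (hc.const_mul (t ^ 2)))

/-- bound for one piece of length at most one -/
lemma ft_piece {φ φ' φ'' : ℝ → ℝ} {a b H K : ℝ} (hab : a ≤ b) (hab1 : b - a ≤ 1)
    (h1 : ∀ y ∈ Set.Icc a b, HasDerivAt φ (φ' y) y)
    (h2 : ∀ y ∈ Set.Icc a b, HasDerivAt φ' (φ'' y) y)
    (h3 : ContinuousOn φ'' (Set.Icc a b)) (hH : ∀ y ∈ Set.Icc a b, |φ y| ≤ H)
    (hK : ∀ y ∈ Set.Icc a b, |φ'' y| ≤ K) (hH0 : 0 ≤ H) (hK0 : 0 ≤ K) (t : ℝ) :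
    ‖((1 + t ^ 2 : ℝ) : ℂ) * (∫ y in a..b, ((φ y : ℝ) : ℂ) * ftE t y) -
      (((φ' b : ℂ) + t * φ b * I) * ftE t b - ((φ' a : ℂ) + t * φ a * I) * ftE t a)‖ ≤
      H + K := by
  have hc : ContinuousOn φ (Set.Icc a b) := fun y hy => (h1 y hy).continuousAt.continuousWithinAt
  have e1 : ((1 + t ^ 2 : ℝ) : ℂ) * (∫ y in a..b, ((φ y : ℝ) : ℂ) * ftE t y) -
      (((φ' b : ℂ) + t * φ b * I) * ftE t b - ((φ' a : ℂ) + t * φ a * I) * ftE t a) =
      ∫ y in a..b, ((φ y - φ'' y : ℝ) : ℂ) * ftE t y := by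
    rw [← ft_parts hab h1 h2 h3 t, ← intervalIntegral.integral_const_mul,
      ← intervalIntegral.integral_sub]
    · refine intervalIntegral.integral_congr fun y _ => ?_
      push_cast
      ring
    · refine ContinuousOn.intervalIntegrable ?_
      rw [Set.uIcc_of_le hab]
      exact continuousOn_const.mul ((Complex.continuous_ofReal.comp_continuousOn hc).mul
        (ftE_cont t).continuousOn)
    · refine ContinuousOn.intervalIntegrable ?_
      rw [Set.uIcc_of_le hab]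
      exact (Complex.continuous_ofReal.comp_continuousOn (h3.add (hc.const_mul (t ^ 2)))).mul
        (ftE_cont t).continuousOn
  rw [e1]
  have h5 := intervalIntegral.norm_integral_le_of_norm_le_const (a := a) (b := b) (C := H + K)
    (f := fun y => ((φ y - φ'' y : ℝ) : ℂ) * ftE t y) ?_
  · refine h5.trans ?_
    rw [abs_of_nonneg (by linarith)]
    nlinarith
  · intro y hy
    rw [Set.uIoc_of_le hab] at hy
    have hy' : y ∈ Set.Icc a b := ⟨hy.1.le, hy.2⟩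
    rw [norm_mul, ftE_norm, mul_one, Complex.norm_real, Real.norm_eq_abs]
    exact (abs_sub _ _).trans (add_le_add (hH y hy') (hK y hy'))

/-- the functions `e^{σ y} y^{-(k+j)}` -/
noncomputable def fte (σ : ℝ) (k j : ℕ) (y : ℝ) : ℝ := Real.exp (σ * y) * (y ^ (k + j))⁻¹

lemma fte_deriv (σ : ℝ) (k j : ℕ) {y : ℝ} (hy : 1 ≤ y) :
    HasDerivAt (fte σ k j) (σ * fte σ k j y - (k + j) * fte σ k (j + 1) y) y := by
  have hy0 : y ≠ 0 := by linarith
  have h1 : HasDerivAt (fun y : ℝ => (y ^ (k + j))⁻¹) (-((k : ℝ) + j) * (y ^ (k + (j + 1)))⁻¹) y := by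
    have h2 := (hasDerivAt_pow (k + j) y).inv (pow_ne_zero _ hy0)
    refine h2.congr_deriv ?_
    rcases Nat.eq_zero_or_pos (k + j) with h | h
    · have hk : k = 0 := by omega
      have hj : j = 0 := by omega
      subst hk hj
      simp
    · obtain ⟨n, hn⟩ : ∃ n, k + j = n + 1 := ⟨k + j - 1, by omega⟩
      have h3 : ((k : ℝ) + j) = ((k + j : ℕ) : ℝ) := by push_cast; ring
      rw [h3, show k + (j + 1) = (k + j) + 1 by ring, hn]
      simp only [Nat.add_sub_cancel]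
      field_simp
      ring
  have h2 : HasDerivAt (fun y : ℝ => Real.exp (σ * y)) (Real.exp (σ * y) * σ) y := by
    have h3 : HasDerivAt (fun y : ℝ => σ * y) σ y := by
      simpa using (hasDerivAt_id' y).const_mul σ
    exact h3.exp
  refine (h2.mul h1).congr_deriv ?_
  unfold fte
  ring

lemma fte_cont (σ : ℝ) (k j : ℕ) {a b : ℝ} (ha : 1 ≤ a) :
    ContinuousOn (fte σ k j) (Set.Icc a b) := fun y hy =>
  (fte_deriv σ k j (ha.trans hy.1)).continuousAt.continuousWithinAt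

lemma fte_nonneg (σ : ℝ) (k j : ℕ) {y : ℝ} (hy : 1 ≤ y) : 0 ≤ fte σ k j y := by
  unfold fte
  have : 0 ≤ y := by linarith
  positivity

lemma fte_le (σ : ℝ) (k j : ℕ) {y : ℝ} (hy : 1 ≤ y) : fte σ k (j + 1) y ≤ fte σ k j y := by
  unfold fte
  have h0 : 0 < y := by linarith
  have h1 : y ^ (k + j) ≤ y ^ (k + (j + 1)) := pow_le_pow_right₀ hy (by omega)
  have h2 : (y ^ (k + (j + 1)))⁻¹ ≤ (y ^ (k + j))⁻¹ := by
    apply inv_anti₀ (by positivity) h1
  exact mul_le_mul_of_nonneg_left h2 (Real.exp_pos _).le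

/-- first derivative of `h` -/
noncomputable def ft1 (σ : ℝ) (k : ℕ) (y : ℝ) : ℝ := σ * fte σ k 0 y - k * fte σ k 1 y

/-- second derivative of `h` -/
noncomputable def ft2 (σ : ℝ) (k : ℕ) (y : ℝ) : ℝ :=
  σ * (σ * fte σ k 0 y - k * fte σ k 1 y) - k * (σ * fte σ k 1 y - (k + 1) * fte σ k 2 y)

lemma ft1_deriv (σ : ℝ) (k : ℕ) {y : ℝ} (hy : 1 ≤ y) :
    HasDerivAt (fte σ k 0) (ft1 σ k y) y := by
  refine (fte_deriv σ k 0 hy).congr_deriv ?_
  simp [ft1]

lemma ft2_deriv (σ : ℝ) (k : ℕ) {y : ℝ} (hy : 1 ≤ y) :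
    HasDerivAt (ft1 σ k) (ft2 σ k y) y := by
  refine (((fte_deriv σ k 0 hy).const_mul σ).sub ((fte_deriv σ k 1 hy).const_mul
    (k : ℝ))).congr_deriv ?_
  simp [ft2]

lemma ft2_cont (σ : ℝ) (k : ℕ) {a b : ℝ} (ha : 1 ≤ a) : ContinuousOn (ft2 σ k) (Set.Icc a b) := by
  unfold ft2
  have h0 := fte_cont σ k 0 (b := b) ha
  have h1 := fte_cont σ k 1 (b := b) ha
  have h2 := fte_cont σ k 2 (b := b) ha
  fun_prop

lemma ft_bounds {σ : ℝ} (hσ0 : 0 ≤ σ) (hσ : σ ≤ 3 / 2) (k : ℕ) {y H : ℝ} (hy : 1 ≤ y)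
    (hH : fte σ k 0 y ≤ H) : |fte σ k 0 y| ≤ H ∧ |ft1 σ k y| ≤ (k + 3) * H ∧
    |ft2 σ k y| ≤ (k + 3) ^ 2 * H := by
  have e0 := fte_nonneg σ k 0 hy
  have e1 := fte_nonneg σ k 1 hy
  have e2 := fte_nonneg σ k 2 hy
  have l1 := fte_le σ k 0 hy
  have l2 := fte_le σ k 1 hy
  simp only [zero_add] at l1
  have l2' : fte σ k 2 y ≤ fte σ k 1 y := l2
  have hk : (0 : ℝ) ≤ k := Nat.cast_nonneg k
  have hH0 : 0 ≤ H := e0.trans hH
  set a := fte σ k 0 y
  set b := fte σ k 1 y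
  set c := fte σ k 2 y
  refine ⟨by rwa [abs_of_nonneg e0], ?_, ?_⟩
  · unfold ft1
    have h1 : σ * a ≤ 3 * H := by nlinarith
    have h2 : (k : ℝ) * b ≤ k * H := mul_le_mul_of_nonneg_left (l1.trans hH) hk
    have h3 : 0 ≤ σ * a := mul_nonneg hσ0 e0
    have h4 : 0 ≤ (k : ℝ) * b := mul_nonneg hk e1
    have h5 : 0 ≤ (k : ℝ) * H := mul_nonneg hk hH0
    rw [abs_le]
    constructor <;> linarith
  · unfold ft2
    have hb : b ≤ H := l1.trans hH
    have hc : c ≤ H := l2'.trans hb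
    have h1 : σ * (σ * a) ≤ 9 / 4 * H := by
      have : σ * a ≤ 3 / 2 * H := by nlinarith
      nlinarith
    have h2 : σ * (k * b) ≤ 3 / 2 * (k * H) := by
      have h6 : (k : ℝ) * b ≤ k * H := mul_le_mul_of_nonneg_left hb hk
      have h7 : 0 ≤ (k : ℝ) * b := mul_nonneg hk e1
      nlinarith
    have h3 : (k : ℝ) * ((k + 1) * c) ≤ k * ((k + 1) * H) := by gcongr
    have h4 : 0 ≤ σ * (σ * a) := by positivity
    have h5 : 0 ≤ σ * (k * b) := by positivity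
    have h6 : 0 ≤ (k : ℝ) * ((k + 1) * c) := by positivity
    have h7 : 0 ≤ (k : ℝ) * H := by positivity
    have h8 : 0 ≤ (k : ℝ) * (k * H) := by positivity
    rw [abs_le]
    constructor <;> nlinarith

/-- the integrand -/
noncomputable def ftg (Y σ : ℝ) (k : ℕ) (y : ℝ) : ℝ :=
  hat (y - Y) * (Real.exp (σ * y) * ((max y 1) ^ k)⁻¹)

lemma ftg_cont (Y σ : ℝ) (k : ℕ) : Continuous (ftg Y σ k) := by
  unfold ftg hat
  refine Continuous.mul (by fun_prop) (Continuous.mul (by fun_prop) ?_)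
  refine Continuous.inv₀ (by fun_prop) fun y => ?_
  have : (1 : ℝ) ≤ max y 1 := le_max_right _ _
  have h2 : (0 : ℝ) < max y 1 := by linarith
  positivity

lemma ftg_supp {Y σ : ℝ} {k : ℕ} {y : ℝ} (h : ftg Y σ k y ≠ 0) : Y - 1 < y ∧ y < Y + 1 := by
  have h1 : hat (y - Y) ≠ 0 := by
    intro h2
    apply h
    unfold ftg
    rw [h2, zero_mul]
  have h2 := abs_lt.1 (abs_lt_one_of_hat_ne_zero h1)
  constructor <;> linarith [h2.1, h2.2]

lemma ftg_left {Y σ : ℝ} {k : ℕ} {y : ℝ} (hY : 2 ≤ Y) (h1 : Y - 1 ≤ y) (h2 : y ≤ Y) :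
    ftg Y σ k y = (1 - Y + y) * fte σ k 0 y := by
  unfold ftg fte hat
  rw [abs_of_nonpos (by linarith : y - Y ≤ 0), max_eq_right (by linarith),
    max_eq_left (by linarith : (1 : ℝ) ≤ y), add_zero]
  ring

lemma ftg_right {Y σ : ℝ} {k : ℕ} {y : ℝ} (hY : 2 ≤ Y) (h1 : Y ≤ y) (h2 : y ≤ Y + 1) :
    ftg Y σ k y = (1 + Y - y) * fte σ k 0 y := by
  unfold ftg fte hat
  rw [abs_of_nonneg (by linarith : 0 ≤ y - Y), max_eq_right (by linarith),
    max_eq_left (by linarith : (1 : ℝ) ≤ y), add_zero]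
  ring

/-- the transform -/
noncomputable def ftG (Y σ : ℝ) (k : ℕ) (t : ℝ) : ℂ := ∫ y : ℝ, (ftg Y σ k y : ℂ) * ftE t y

lemma ftG_split {Y σ : ℝ} {k : ℕ} (hY : 2 ≤ Y) (t : ℝ) : ftG Y σ k t =
    (∫ y in (Y - 1)..Y, (((1 - Y + y) * fte σ k 0 y : ℝ) : ℂ) * ftE t y) +
    ∫ y in Y..(Y + 1), (((1 + Y - y) * fte σ k 0 y : ℝ) : ℂ) * ftE t y := by
  have hc : Continuous fun y : ℝ => (ftg Y σ k y : ℂ) * ftE t y :=
    (Complex.continuous_ofReal.comp (ftg_cont Y σ k)).mul (ftE_cont t)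
  have h1 : ftG Y σ k t = ∫ y in (Y - 1)..(Y + 1), (ftg Y σ k y : ℂ) * ftE t y := by
    rw [intervalIntegral.integral_eq_integral_of_support_subset]
    · rfl
    · intro y hy
      rw [Function.mem_support] at hy
      have h2 : ftg Y σ k y ≠ 0 := by
        intro h3
        apply hy
        rw [h3]
        simp
      have h3 := ftg_supp h2
      exact ⟨h3.1, h3.2.le⟩
  rw [h1, ← intervalIntegral.integral_add_adjacent_intervals (b := Y)
    (hc.intervalIntegrable _ _) (hc.intervalIntegrable _ _)]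
  congr 1
  · refine intervalIntegral.integral_congr fun y hy => ?_
    rw [Set.uIcc_of_le (by linarith)] at hy
    rw [ftg_left hY hy.1 hy.2]
  · refine intervalIntegral.integral_congr fun y hy => ?_
    rw [Set.uIcc_of_le (by linarith)] at hy
    rw [ftg_right hY hy.1 hy.2]

lemma ftG_bound {Y σ H : ℝ} {k : ℕ} (hY : 2 ≤ Y) (hσ0 : 0 ≤ σ) (hσ : σ ≤ 3 / 2) (hH0 : 0 ≤ H)
    (hH : ∀ y ∈ Set.Icc (Y - 1) (Y + 1), fte σ k 0 y ≤ H) (t : ℝ) :
    ‖ftG Y σ k t‖ ≤ 2 * ((k : ℝ) + 5) ^ 2 * H / (1 + t ^ 2) := by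
  have hk : (0 : ℝ) ≤ k := Nat.cast_nonneg k
  -- derivatives of the two pieces
  obtain ⟨φ1', hφ1'⟩ : ∃ f : ℝ → ℝ, f = fun y => fte σ k 0 y + (1 - Y + y) * ft1 σ k y := ⟨_, rfl⟩
  obtain ⟨φ1'', hφ1''⟩ : ∃ f : ℝ → ℝ, f = fun y => 2 * ft1 σ k y + (1 - Y + y) * ft2 σ k y :=
    ⟨_, rfl⟩
  obtain ⟨φ2', hφ2'⟩ : ∃ f : ℝ → ℝ, f = fun y => -fte σ k 0 y + (1 + Y - y) * ft1 σ k y := ⟨_, rfl⟩
  obtain ⟨φ2'', hφ2''⟩ : ∃ f : ℝ → ℝ, f = fun y => -(2 * ft1 σ k y) + (1 + Y - y) * ft2 σ k y :=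
    ⟨_, rfl⟩
  have hb : ∀ y ∈ Set.Icc (Y - 1) (Y + 1), |fte σ k 0 y| ≤ H ∧ |ft1 σ k y| ≤ (k + 3) * H ∧
      |ft2 σ k y| ≤ (k + 3) ^ 2 * H := fun y hy =>
    ft_bounds hσ0 hσ k (by linarith [hy.1]) (hH y hy)
  have hK : ∀ (y u : ℝ), y ∈ Set.Icc (Y - 1) (Y + 1) → |u| ≤ 1 →
      |2 * ft1 σ k y + u * ft2 σ k y| ≤ (k + 4) ^ 2 * H ∧
      |-(2 * ft1 σ k y) + u * ft2 σ k y| ≤ (k + 4) ^ 2 * H ∧
      |fte σ k 0 y + u * ft1 σ k y| ≤ (k + 4) * H ∧
      |-fte σ k 0 y + u * ft1 σ k y| ≤ (k + 4) * H ∧ |u * fte σ k 0 y| ≤ H := by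
    intro y u hy hu
    obtain ⟨b0, b1, b2⟩ := hb y hy
    have c2 : |u * ft2 σ k y| ≤ (k + 3) ^ 2 * H := by
      rw [abs_mul]
      calc |u| * |ft2 σ k y| ≤ 1 * ((k + 3) ^ 2 * H) :=
            mul_le_mul hu b2 (abs_nonneg _) zero_le_one
        _ = _ := one_mul _
    have c1 : |u * ft1 σ k y| ≤ (k + 3) * H := by
      rw [abs_mul]
      calc |u| * |ft1 σ k y| ≤ 1 * ((k + 3) * H) :=
            mul_le_mul hu b1 (abs_nonneg _) zero_le_one
        _ = _ := one_mul _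
    have c0 : |u * fte σ k 0 y| ≤ H := by
      rw [abs_mul]
      calc |u| * |fte σ k 0 y| ≤ 1 * H := mul_le_mul hu b0 (abs_nonneg _) zero_le_one
        _ = _ := one_mul _
    have d1 : |2 * ft1 σ k y| ≤ 2 * ((k + 3) * H) := by
      rw [abs_mul, abs_of_pos (by norm_num : (0 : ℝ) < 2)]
      linarith
    have e1 : 2 * ((k + 3) * H) + (k + 3) ^ 2 * H ≤ (k + 4) ^ 2 * H := by nlinarith
    refine ⟨(abs_add_le _ _).trans (by linarith), (abs_add_le _ _).trans (by rw [abs_neg]; linarith),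
      (abs_add_le _ _).trans (by linarith), (abs_add_le _ _).trans (by rw [abs_neg]; linarith), c0⟩
  have p1 := ft_piece (φ := fun y => (1 - Y + y) * fte σ k 0 y) (φ' := φ1') (φ'' := φ1'')
    (a := Y - 1) (b := Y) (H := H) (K := (k + 4) ^ 2 * H) (by linarith) (by linarith)
    (fun y hy => by
      have h1 : HasDerivAt (fun y : ℝ => 1 - Y + y) 1 y := (hasDerivAt_id' y).const_add (1 - Y)
      refine (h1.mul (ft1_deriv σ k (by linarith [hy.1]))).congr_deriv ?_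
      rw [hφ1']; ring)
    (fun y hy => by
      have h1 : HasDerivAt (fun y : ℝ => 1 - Y + y) 1 y := (hasDerivAt_id' y).const_add (1 - Y)
      rw [hφ1']
      refine ((ft1_deriv σ k (by linarith [hy.1])).add
        (h1.mul (ft2_deriv σ k (by linarith [hy.1])))).congr_deriv ?_
      rw [hφ1'']; ring)
    (by
      rw [hφ1'']
      have h1 : ContinuousOn (ft1 σ k) (Set.Icc (Y - 1) Y) := fun y hy =>
        (ft2_deriv σ k (by linarith [hy.1])).continuousAt.continuousWithinAt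
      have h2 := ft2_cont σ k (a := Y - 1) (b := Y) (by linarith)
      fun_prop)
    (fun y hy => (hK y (1 - Y + y) ⟨hy.1, by linarith [hy.2]⟩
      (abs_le.2 ⟨by linarith [hy.1], by linarith [hy.2]⟩)).2.2.2.2)
    (fun y hy => by
      rw [hφ1'']
      exact (hK y (1 - Y + y) ⟨hy.1, by linarith [hy.2]⟩
        (abs_le.2 ⟨by linarith [hy.1], by linarith [hy.2]⟩)).1) hH0 (by positivity) t
  have p2 := ft_piece (φ := fun y => (1 + Y - y) * fte σ k 0 y) (φ' := φ2') (φ'' := φ2'')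
    (a := Y) (b := Y + 1) (H := H) (K := (k + 4) ^ 2 * H) (by linarith) (by linarith)
    (fun y hy => by
      have h1 : HasDerivAt (fun y : ℝ => 1 + Y - y) (-1) y :=
        (hasDerivAt_id' y).const_sub (1 + Y)
      refine (h1.mul (ft1_deriv σ k (by linarith [hy.1]))).congr_deriv ?_
      rw [hφ2']; ring)
    (fun y hy => by
      have h1 : HasDerivAt (fun y : ℝ => 1 + Y - y) (-1) y :=
        (hasDerivAt_id' y).const_sub (1 + Y)
      rw [hφ2']
      refine ((ft1_deriv σ k (by linarith [hy.1])).neg.add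
        (h1.mul (ft2_deriv σ k (by linarith [hy.1])))).congr_deriv ?_
      rw [hφ2'']; ring)
    (by
      rw [hφ2'']
      have h1 : ContinuousOn (ft1 σ k) (Set.Icc Y (Y + 1)) := fun y hy =>
        (ft2_deriv σ k (by linarith [hy.1])).continuousAt.continuousWithinAt
      have h2 := ft2_cont σ k (a := Y) (b := Y + 1) (by linarith)
      fun_prop)
    (fun y hy => (hK y (1 + Y - y) ⟨by linarith [hy.1], hy.2⟩
      (abs_le.2 ⟨by linarith [hy.2], by linarith [hy.1]⟩)).2.2.2.2)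
    (fun y hy => by
      rw [hφ2'']
      exact (hK y (1 + Y - y) ⟨by linarith [hy.1], hy.2⟩
        (abs_le.2 ⟨by linarith [hy.2], by linarith [hy.1]⟩)).2.1) hH0 (by positivity) t
  set I1 : ℂ := ∫ y in (Y - 1)..Y, (((1 - Y + y) * fte σ k 0 y : ℝ) : ℂ) * ftE t y with hI1
  set I2 : ℂ := ∫ y in Y..(Y + 1), (((1 + Y - y) * fte σ k 0 y : ℝ) : ℂ) * ftE t y with hI2
  -- the boundary terms
  have hbd : ‖((1 + t ^ 2 : ℝ) : ℂ) * ftG Y σ k t - ((φ1' Y : ℂ) * ftE t Y -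
      (φ1' (Y - 1) : ℂ) * ftE t (Y - 1) + (φ2' (Y + 1) : ℂ) * ftE t (Y + 1) -
      (φ2' Y : ℂ) * ftE t Y)‖ ≤ (H + (k + 4) ^ 2 * H) + (H + (k + 4) ^ 2 * H) := by
    refine le_trans (le_of_eq ?_) ((norm_add_le _ _).trans (add_le_add p1 p2))
    congr 1
    rw [ftG_split hY t, ← hI1, ← hI2]
    push_cast
    ring
  have hq : ∀ (f : ℝ) (y : ℝ), |f| ≤ (k + 4) * H → ‖(f : ℂ) * ftE t y‖ ≤ (k + 4) * H := by
    intro f y h
    rw [norm_mul, ftE_norm, mul_one, Complex.norm_real, Real.norm_eq_abs]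
    exact h
  have q1 : |φ1' Y| ≤ (k + 4) * H := by
    rw [hφ1']
    exact (hK Y (1 - Y + Y) ⟨by linarith, by linarith⟩ (by simp)).2.2.1
  have q2 : |φ1' (Y - 1)| ≤ (k + 4) * H := by
    rw [hφ1']
    exact (hK (Y - 1) (1 - Y + (Y - 1)) ⟨by linarith, by linarith⟩
      (by rw [show 1 - Y + (Y - 1) = 0 by ring]; simp)).2.2.1
  have q3 : |φ2' (Y + 1)| ≤ (k + 4) * H := by
    rw [hφ2']
    exact (hK (Y + 1) (1 + Y - (Y + 1)) ⟨by linarith, by linarith⟩
      (by rw [show 1 + Y - (Y + 1) = 0 by ring]; simp)).2.2.2.1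
  have q4 : |φ2' Y| ≤ (k + 4) * H := by
    rw [hφ2']
    exact (hK Y (1 + Y - Y) ⟨by linarith, by linarith⟩
      (by rw [show 1 + Y - Y = 1 by ring]; simp)).2.2.2.1
  have hB : ‖(φ1' Y : ℂ) * ftE t Y -
      (φ1' (Y - 1) : ℂ) * ftE t (Y - 1) + (φ2' (Y + 1) : ℂ) * ftE t (Y + 1) -
      (φ2' Y : ℂ) * ftE t Y‖ ≤ 4 * ((k + 4) * H) := by
    have r1 := hq _ Y q1
    have r2 := hq _ (Y - 1) q2
    have r3 := hq _ (Y + 1) q3
    have r4 := hq _ Y q4
    refine (norm_sub_le _ _).trans ?_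
    have r5 := norm_add_le ((φ1' Y : ℂ) * ftE t Y - (φ1' (Y - 1) : ℂ) * ftE t (Y - 1))
      ((φ2' (Y + 1) : ℂ) * ftE t (Y + 1))
    have r6 := norm_sub_le ((φ1' Y : ℂ) * ftE t Y) ((φ1' (Y - 1) : ℂ) * ftE t (Y - 1))
    linarith
  have hT : ‖((1 + t ^ 2 : ℝ) : ℂ) * ftG Y σ k t‖ ≤ 2 * ((k : ℝ) + 5) ^ 2 * H := by
    have h1 := norm_le_norm_sub_add (((1 + t ^ 2 : ℝ) : ℂ) * ftG Y σ k t) ((φ1' Y : ℂ) * ftE t Y -
      (φ1' (Y - 1) : ℂ) * ftE t (Y - 1) + (φ2' (Y + 1) : ℂ) * ftE t (Y + 1) -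
      (φ2' Y : ℂ) * ftE t Y)
    nlinarith
  have ht : (0 : ℝ) < 1 + t ^ 2 := by positivity
  rw [norm_mul, Complex.norm_real, Real.norm_of_nonneg ht.le] at hT
  rw [le_div_iff₀ ht]
  linarith

lemma ftg_int (Y σ : ℝ) (k : ℕ) : Integrable fun y => (ftg Y σ k y : ℂ) := by
  refine Continuous.integrable_of_hasCompactSupport
    (Complex.continuous_ofReal.comp (ftg_cont Y σ k)) ?_
  refine HasCompactSupport.intro (isCompact_Icc (a := Y - 1) (b := Y + 1)) fun y hy => ?_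
  by_contra h
  have h1 : ftg Y σ k y ≠ 0 := by
    intro h2
    apply h
    rw [h2]
    simp
  have h2 := ftg_supp h1
  exact hy ⟨h2.1.le, h2.2.le⟩

lemma ftG_cont (Y σ : ℝ) (k : ℕ) : Continuous (ftG Y σ k) := by
  unfold ftG
  refine continuous_of_dominated (bound := fun y => ‖(ftg Y σ k y : ℂ)‖) ?_ ?_
    (ftg_int Y σ k).norm ?_
  · intro t
    exact ((Complex.continuous_ofReal.comp (ftg_cont Y σ k)).mul
      (ftE_cont t)).aestronglyMeasurable
  · intro t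
    refine Filter.Eventually.of_forall fun y => ?_
    rw [norm_mul, ftE_norm, mul_one]
  · refine Filter.Eventually.of_forall fun y => ?_
    unfold ftE
    fun_prop

lemma ftG_fourier (Y σ : ℝ) (k : ℕ) (w : ℝ) :
    𝓕 (fun y : ℝ => (ftg Y σ k y : ℂ)) w = ftG Y σ k (2 * π * w) := by
  rw [Real.fourier_real_eq_integral_exp_smul]
  unfold ftG
  refine integral_congr_ae (Filter.Eventually.of_forall fun y => ?_)
  simp only [smul_eq_mul]
  rw [mul_comm]
  congr 1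
  unfold ftE
  congr 2
  push_cast
  ring

lemma ftG_inv {Y σ : ℝ} {k : ℕ} {C : ℝ} (hC : ∀ t, ‖ftG Y σ k t‖ ≤ C / (1 + t ^ 2)) (y : ℝ) :
    (ftg Y σ k y : ℂ) = ∫ t : ℝ, (((1 / (2 * π) : ℝ) : ℂ) * ftG Y σ k t) *
      Complex.exp (t * y * I) := by
  have hC0 : 0 ≤ C := by
    have := (norm_nonneg _).trans (hC 0)
    simpa using this
  have h2π : (1 : ℝ) ≤ 2 * π := by
    have := Real.pi_gt_three
    linarith
  have hint : Integrable (𝓕 (fun y : ℝ => (ftg Y σ k y : ℂ))) := by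
    have e : 𝓕 (fun y : ℝ => (ftg Y σ k y : ℂ)) = fun w => ftG Y σ k (2 * π * w) := by
      funext w
      exact ftG_fourier Y σ k w
    rw [e]
    refine Integrable.mono' (integrable_inv_one_add_sq.const_mul C) ?_ ?_
    · exact ((ftG_cont Y σ k).comp (continuous_const.mul continuous_id)).aestronglyMeasurable
    · refine Filter.Eventually.of_forall fun w => (hC _).trans ?_
      rw [div_eq_mul_inv]
      refine mul_le_mul_of_nonneg_left ?_ hC0
      apply inv_anti₀ (by positivity)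
      have h3 : (2 * π * w) ^ 2 = (2 * π) ^ 2 * w ^ 2 := by ring
      have h4 : (1 : ℝ) ≤ (2 * π) ^ 2 := by nlinarith
      rw [h3]
      nlinarith [sq_nonneg w]
  have h1 := (Complex.continuous_ofReal.comp (ftg_cont Y σ k)).fourierInv_fourier_eq
    (ftg_int Y σ k) hint
  have h2 := congrFun h1 y
  have h3 : 𝓕⁻ (𝓕 (fun y : ℝ => (ftg Y σ k y : ℂ))) y = (ftg Y σ k y : ℂ) := h2
  rw [← h3, Real.fourierInv_eq']
  have h4 : ∀ w : ℝ, Complex.exp (((2 * π * inner ℝ w y : ℝ) : ℂ) * I) •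
      𝓕 (fun y : ℝ => (ftg Y σ k y : ℂ)) w =
      (fun t : ℝ => ftG Y σ k t * Complex.exp (t * y * I)) (2 * π * w) := by
    intro w
    rw [ftG_fourier, smul_eq_mul, mul_comm]
    simp only []
    congr 2
    have h5 : inner ℝ w y = y * w := rfl
    rw [h5]
    push_cast
    ring
  rw [integral_congr_ae (Filter.Eventually.of_forall h4),
    Measure.integral_comp_mul_left (fun t : ℝ => ftG Y σ k t * Complex.exp (t * y * I)) (2 * π),
    abs_of_pos (by positivity), ← integral_smul]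
  refine integral_congr_ae (Filter.Eventually.of_forall fun t => ?_)
  simp only [one_div, Complex.real_smul]
  ring

theorem ft : T_FT := by
  intro k
  refine ⟨2 * ((k : ℝ) + 5) ^ 2 * (Real.exp 3 * 2 ^ k), by positivity, fun X hX => ?_⟩
  have hX0 : 0 < X := by linarith
  obtain ⟨Y, hYdef⟩ : ∃ Y, Y = Real.log X := ⟨_, rfl⟩
  rw [← hYdef]
  have hY : 2 ≤ Y := by
    rw [hYdef, Real.le_log_iff_exp_le hX0]
    have h1 : Real.exp 2 = Real.exp 1 * Real.exp 1 := by rw [← Real.exp_add]; norm_num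
    have h2 := Real.exp_one_lt_d9
    have h3 := Real.exp_pos 1
    rw [h1]
    nlinarith
  obtain ⟨σ, hσdef⟩ : ∃ σ, σ = 1 + 1 / Y := ⟨_, rfl⟩
  have hY0 : 0 < Y := by linarith
  have hinv : 1 / Y ≤ 1 / 2 := one_div_le_one_div_of_le (by norm_num) hY
  have hinv0 : 0 < 1 / Y := by positivity
  have hσ0 : 0 ≤ σ := by rw [hσdef]; linarith
  have hσ : σ ≤ 3 / 2 := by rw [hσdef]; linarith
  obtain ⟨H, hHdef⟩ : ∃ H, H = Real.exp 3 * 2 ^ k * X / Y ^ k := ⟨_, rfl⟩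
  have hH0 : 0 ≤ H := by rw [hHdef]; positivity
  have hH : ∀ y ∈ Set.Icc (Y - 1) (Y + 1), fte σ k 0 y ≤ H := by
    intro y hy
    have hy1 : Y / 2 ≤ y := by linarith [hy.1]
    have h1 : Real.exp (σ * y) ≤ Real.exp 3 * X := by
      have h2 : σ * y ≤ 3 + Y := by
        have h3 : σ * y ≤ σ * (Y + 1) := mul_le_mul_of_nonneg_left hy.2 hσ0
        have h4 : σ * (Y + 1) = Y + 1 + 1 + 1 / Y := by
          rw [hσdef]
          field_simp
          ring
        linarith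
      calc Real.exp (σ * y) ≤ Real.exp (3 + Y) := Real.exp_le_exp.2 h2
        _ = Real.exp 3 * X := by rw [Real.exp_add, hYdef, Real.exp_log hX0]
    have h2 : (y ^ (k + 0))⁻¹ ≤ 2 ^ k / Y ^ k := by
      have e : (2 : ℝ) ^ k / Y ^ k = ((Y / 2) ^ k)⁻¹ := by rw [div_pow, inv_div]
      rw [add_zero, e]
      apply inv_anti₀ (by positivity)
      exact pow_le_pow_left₀ (by positivity) hy1 k
    unfold fte
    calc Real.exp (σ * y) * (y ^ (k + 0))⁻¹ ≤ (Real.exp 3 * X) * (2 ^ k / Y ^ k) :=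
          mul_le_mul h1 h2 (by have : 0 < y := by linarith
                               positivity) (by positivity)
      _ = H := by rw [hHdef]; ring
  have hb := ftG_bound hY hσ0 hσ hH0 hH
  have hπ : (0 : ℝ) < 2 * π := by positivity
  have hπ1 : 1 / (2 * π) ≤ 1 := by
    rw [div_le_one hπ]
    have := Real.pi_gt_three
    linarith
  refine ⟨fun t => ((1 / (2 * π) : ℝ) : ℂ) * ftG Y σ k t, continuous_const.mul (ftG_cont Y σ k),
    fun t => ?_, fun y hy => ?_⟩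
  · rw [norm_mul, Complex.norm_real, Real.norm_of_nonneg (by positivity)]
    calc 1 / (2 * π) * ‖ftG Y σ k t‖ ≤ 1 * ‖ftG Y σ k t‖ :=
          mul_le_mul_of_nonneg_right hπ1 (norm_nonneg _)
      _ = ‖ftG Y σ k t‖ := one_mul _
      _ ≤ _ := hb t
      _ = _ := by rw [hHdef]; ring
  · rw [← hσdef]
    have h1 := ftG_inv (C := 2 * ((k : ℝ) + 5) ^ 2 * H) hb y
    rw [← h1, ← Complex.ofReal_mul]
    congr 1
    by_cases h0 : hat (y - Y) = 0
    · unfold ftg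
      rw [h0]
      ring
    · have h2 := abs_lt.1 (abs_lt_one_of_hat_ne_zero h0)
      unfold ftg
      rw [max_eq_left (by linarith [h2.1] : (1 : ℝ) ≤ y), Real.exp_neg]
      have h3 : Real.exp (σ * y) ≠ 0 := (Real.exp_pos _).ne'
      have h4 : y ^ k ≠ 0 := by positivity
      field_simp

end Pool.Agent.H4.BV
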