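import Pool.Agent.H30.BV.Targets

/-!
# The mean value theorem of Bombieri-Vinogradov type (module BV of bv_modules)
-/

set_option autoImplicit false

namespace Pool.Agent.H4.BV

open Finset Real
open scoped Nat
open Pool.Agent.H30.BV

lemma bv_log_pow (c : ℝ) (hc : 0 < c) (n : ℕ) :
    ∃ X₀ : ℝ, ∀ X : ℝ, X₀ ≤ X → Real.log X ^ n ≤ c * X := by
  have h1 := (Real.isLittleO_pow_log_id_atTop (n := n)).bound hc
  obtain ⟨X₀, hX₀⟩ := Filter.eventually_atTop.1 h1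
  refine ⟨max X₀ 0, fun X hX => ?_⟩
  have h2 := hX₀ X ((le_max_left _ _).trans hX)
  have h3 : 0 ≤ X := (le_max_right _ _).trans hX
  simp only [id, Real.norm_eq_abs, abs_of_nonneg h3] at h2
  exact (le_abs_self _).trans h2

lemma bv_fact (M : ℕ) : ∏ p ∈ Icc 1 M, p = M ! := by
  induction M with
  | zero => simp
  | succ M ih => rw [Finset.prod_Icc_succ_top (by omega), ih, Nat.factorial_succ, mul_comm]

lemma bv_factor {q M : ℕ} (hq : Squarefree q) (hM : M ! + M + 2 ≤ q) :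
    ∃ p, p.Prime ∧ M ≤ p ∧ p ∣ q := by
  by_contra h
  push Not at h
  have h1 : q = ∏ p ∈ q.primeFactors, p := (Nat.prod_primeFactors_of_squarefree hq).symm
  have h2 : q.primeFactors ⊆ Icc 1 M := by
    intro p hp
    have hp' := Nat.prime_of_mem_primeFactors hp
    have hd := Nat.dvd_of_mem_primeFactors hp
    rw [mem_Icc]
    refine ⟨hp'.one_le, ?_⟩
    by_contra h3
    exact h p hp' (by omega) hd
  have h3 : ∏ p ∈ q.primeFactors, p ≤ ∏ p ∈ Icc 1 M, p :=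
    Finset.prod_le_prod_of_subset_of_one_le' h2 fun p hp _ => (mem_Icc.1 hp).1
  rw [← h1, bv_fact] at h3
  omega

lemma bv_choice {q₁ M p₀ : ℕ} {T X : ℝ} (hq₁ : M ! + M + 2 ≤ q₁) (hp₀ : p₀.Prime) (hMp₀ : M ≤ p₀)
    (hp₀X : (p₀ : ℝ) ^ 8 ≤ X) (hTX : T ^ 8 ≤ X) :
    ∃ p₁ : ℕ, p₁.Prime ∧ M ≤ p₁ ∧ (p₁ : ℝ) ^ 8 ≤ X ∧
      ∀ (D q : ℕ), q ∈ DD D p₁ → (q : ℝ) ≤ T → q ≠ q₁ := by
  by_cases h : Squarefree q₁ ∧ Odd q₁ ∧ (q₁ : ℝ) ≤ T
  · obtain ⟨h1, h2, h3⟩ := h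
    obtain ⟨p, hp, hMp, hpq⟩ := bv_factor h1 hq₁
    refine ⟨p, hp, hMp, ?_, ?_⟩
    · have h4 : (p : ℝ) ≤ T := by
        have h5 : p ≤ q₁ := Nat.le_of_dvd (by omega) hpq
        have h6 : (p : ℝ) ≤ q₁ := by exact_mod_cast h5
        linarith
      exact (pow_le_pow_left₀ (Nat.cast_nonneg _) h4 8).trans hTX
    · rintro D q hq - rfl
      unfold DD at hq
      exact (mem_filter.1 hq).2.2.2 hpq
  · refine ⟨p₀, hp₀, hMp₀, hp₀X, ?_⟩
    rintro D q hq hqT rfl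
    unfold DD at hq
    have h1 := (mem_filter.1 hq).2
    exact h ⟨h1.1, h1.2.1, hqT⟩

lemma hd_nonneg (d : ℕ) : 0 ≤ hd d := by
  unfold hd
  positivity

lemma SP_nonneg (X : ℝ) (q : ℕ) : 0 ≤ SP X q := by
  unfold SP
  refine finsum_nonneg fun χ => ?_
  split_ifs
  · exact norm_nonneg _
  · exact le_rfl

lemma mem_DD {D p₁ d : ℕ} (h : d ∈ DD D p₁) :
    1 ≤ d ∧ d ≤ D ∧ Squarefree d ∧ Odd d := by
  unfold DD at h
  rw [mem_filter, mem_Icc] at h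
  exact ⟨h.1.1, h.1.2, h.2.1, h.2.2.1⟩

lemma hd_le_two (hHB : T_HB) {D p₁ d : ℕ} (h : d ∈ DD D p₁) : hd d ≤ 2 := by
  obtain ⟨h1, -, h2, h3⟩ := mem_DD h
  refine (hHB d h2 h3).trans ?_
  have h4 : (1 : ℝ) ≤ √(d : ℝ) := by
    rw [Real.one_le_sqrt]
    exact_mod_cast h1
  rw [div_le_iff₀ (by linarith)]
  linarith

lemma card_DD (D p₁ : ℕ) : ((DD D p₁).card : ℝ) ≤ D := by
  have h1 : (DD D p₁).card ≤ (Icc 1 D).card := Finset.card_filter_le _ _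
  have h2 : (Icc 1 D).card = D := by simp
  rw [h2] at h1
  exact_mod_cast h1

/-- the small conductors -/
lemma bv_small (hHB : T_HB) (hSB : T_SB) {X T Y : ℝ} {D p₁ : ℕ} (hY : 0 ≤ Y) (hT : 0 ≤ T)
    (h : ∀ q ∈ DD D p₁, (q : ℝ) ≤ T → 2 ≤ q → ∀ χ : DirichletCharacter ℂ q, χ.IsPrimitive →
      ‖TX X (cv χ)‖ ≤ Y) :
    ∑ q ∈ ((DD D p₁).erase 1).filter (fun q => q ≤ ⌊T⌋₊), hd q * SP X q ≤ 2 * T ^ 2 * Y := by
  have h1 : ∀ q ∈ ((DD D p₁).erase 1).filter (fun q => q ≤ ⌊T⌋₊), hd q * SP X q ≤ 2 * (T * Y) := by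
    intro q hq
    rw [mem_filter, mem_erase] at hq
    obtain ⟨⟨hq1, hqD⟩, hqT⟩ := hq
    have h2 := mem_DD hqD
    have h3 : (q : ℝ) ≤ T := (by exact_mod_cast hqT : (q : ℝ) ≤ (⌊T⌋₊ : ℝ)).trans
      (Nat.floor_le hT)
    have h4 := hSB X Y q h2.1 (h q hqD h3 (by omega)) hY
    have h5 : (q.totient : ℝ) ≤ T := by
      have : q.totient ≤ q := Nat.totient_le q
      exact (by exact_mod_cast this : (q.totient : ℝ) ≤ q).trans h3
    have h6 : SP X q ≤ T * Y := h4.trans (mul_le_mul_of_nonneg_right h5 hY)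
    exact mul_le_mul (hd_le_two hHB hqD) h6 (SP_nonneg X q) (by norm_num)
  refine (Finset.sum_le_card_nsmul _ _ _ h1).trans ?_
  rw [nsmul_eq_mul]
  have h7 : ((((DD D p₁).erase 1).filter (fun q => q ≤ ⌊T⌋₊)).card : ℝ) ≤ T := by
    have h8 : (((DD D p₁).erase 1).filter (fun q => q ≤ ⌊T⌋₊)).card ≤ (Icc 1 ⌊T⌋₊).card := by
      refine Finset.card_le_card fun q hq => ?_
      rw [mem_filter, mem_erase] at hq
      rw [mem_Icc]
      exact ⟨(mem_DD hq.1.2).1, hq.2⟩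
    have h9 : (Icc 1 ⌊T⌋₊).card = ⌊T⌋₊ := by simp
    rw [h9] at h8
    exact (by exact_mod_cast h8 : ((((DD D p₁).erase 1).filter
      (fun q => q ≤ ⌊T⌋₊)).card : ℝ) ≤ (⌊T⌋₊ : ℝ)).trans (Nat.floor_le hT)
  calc _ ≤ T * (2 * (T * Y)) := mul_le_mul_of_nonneg_right h7 (by positivity)
    _ = 2 * T ^ 2 * Y := by ring

/-- the large conductors -/
lemma bv_large (hHB : T_HB) {C X : ℝ} {D p₁ Q : ℕ}
    (h : ∑ q ∈ Ioc Q D, SP X q / √(q : ℝ) ≤ C) :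
    ∑ q ∈ ((DD D p₁).erase 1).filter (fun q => ¬ q ≤ Q), hd q * SP X q ≤ 2 * C := by
  calc ∑ q ∈ ((DD D p₁).erase 1).filter (fun q => ¬ q ≤ Q), hd q * SP X q
      ≤ ∑ q ∈ ((DD D p₁).erase 1).filter (fun q => ¬ q ≤ Q), 2 * (SP X q / √(q : ℝ)) := by
        refine Finset.sum_le_sum fun q hq => ?_
        rw [mem_filter, mem_erase] at hq
        obtain ⟨-, -, h2, h3⟩ := mem_DD hq.1.2
        have h4 := mul_le_mul_of_nonneg_right (hHB q h2 h3) (SP_nonneg X q)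
        refine h4.trans (le_of_eq ?_)
        ring
    _ ≤ ∑ q ∈ Ioc Q D, 2 * (SP X q / √(q : ℝ)) := by
        refine Finset.sum_le_sum_of_subset_of_nonneg (fun q hq => ?_) fun q _ _ => ?_
        · rw [mem_filter, mem_erase] at hq
          rw [mem_Ioc]
          exact ⟨by omega, (mem_DD hq.1.2).2.1⟩
        · have := SP_nonneg X q
          positivity
    _ = 2 * ∑ q ∈ Ioc Q D, SP X q / √(q : ℝ) := by rw [Finset.mul_sum]
    _ ≤ 2 * C := by linarith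

theorem bv (hSW : T_SW) (hS1 : T_S1) (hS2 : T_S2) (hHS : T_HS) (hHB : T_HB) (hDY : T_DY)
    (hSB : T_SB) : T_BV := by
  intro A M
  obtain ⟨C1, hC1, hHS'⟩ := hHS
  obtain ⟨C2, hC2, hDY'⟩ := hDY
  obtain ⟨a, ha⟩ : ∃ a, a = 2 * (A + 6) := ⟨_, rfl⟩
  obtain ⟨b, hb⟩ : ∃ b, b = 2 * a + A + 4 := ⟨_, rfl⟩
  obtain ⟨X1, hX1⟩ := hSW a b (M ! + M + 2)
  obtain ⟨p₀, hMp₀, hp₀⟩ := Nat.exists_infinite_primes M
  obtain ⟨X2, hX2⟩ := bv_log_pow 1 one_pos (a * 8)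
  obtain ⟨X3, hX3⟩ := bv_log_pow (1 / 1024) (by norm_num) (2 * A + 4)
  obtain ⟨K, hK⟩ : ∃ K, K = 1 + 2 * (C1 * (2 + 4 * C2)) := ⟨_, rfl⟩
  refine ⟨max (max (max X1 X2) (max X3 4)) (max ((p₀ : ℝ) ^ 8) (Real.exp K)), fun X hX => ?_⟩
  simp only [max_le_iff] at hX
  obtain ⟨⟨⟨hXX1, hXX2⟩, hXX3, hX4⟩, hXp, hXe⟩ := hX
  have hX0 : 0 < X := by linarith
  obtain ⟨L, hL⟩ : ∃ L, L = Real.log X := ⟨_, rfl⟩
  have hLK : K ≤ L := by
    rw [hL, Real.le_log_iff_exp_le hX0]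
    exact hXe
  have hKpos : 0 ≤ 2 * (C1 * (2 + 4 * C2)) := by positivity
  have hL1 : 1 ≤ L := by linarith
  have hL0 : 0 < L := by linarith
  obtain ⟨q₁, hMq₁, hq₁⟩ := hX1 X hXX1
  have hT8 : (L ^ a) ^ 8 ≤ X := by
    rw [← pow_mul, hL]
    have := hX2 X hXX2
    linarith
  obtain ⟨p₁, hp₁, hMp₁, hp₁X, hsep⟩ := bv_choice (T := L ^ a) hMq₁ hp₀ hMp₀ hXp hT8
  refine ⟨p₁, hp₁, hMp₁, hp₁X, fun D hD => ?_⟩
  rw [← hL]
  rcases Nat.eq_zero_or_pos D with hD0 | hD0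
  · subst hD0
    have h1 : DD 0 p₁ = ∅ := by
      unfold DD
      simp
    rw [h1, Finset.sum_empty]
    positivity
  have hD1 : (1 : ℝ) ≤ D := by exact_mod_cast hD0
  have hDX : (2 * (D : ℝ)) ≤ X := by
    refine le_trans ?_ hD
    exact le_self_pow₀ (by linarith) (by norm_num)
  -- first part
  have hD2 : (D : ℝ) ^ 2 ≤ √X := by
    apply Real.le_sqrt_of_sq_le
    refine le_trans ?_ hD
    have h1 : ((D : ℝ) ^ 2) ^ 2 = (D : ℝ) ^ 4 := by ring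
    have h2 : (2 * (D : ℝ)) ^ 8 = 256 * ((D : ℝ) ^ 4 * (D : ℝ) ^ 4) := by ring
    have h3 : (1 : ℝ) ≤ (D : ℝ) ^ 4 := one_le_pow₀ hD1
    rw [h1, h2]
    nlinarith
  have hs1 : 32 * L ^ (A + 2) ≤ √X := by
    apply Real.le_sqrt_of_sq_le
    have h1 : (32 * L ^ (A + 2)) ^ 2 = 1024 * L ^ (2 * A + 4) := by ring
    have h2 := hX3 X hXX3
    rw [← hL] at h2
    rw [h1]
    linarith
  have hpart1 : ∑ d ∈ DD D p₁, hd d * (8 * d * L ^ 2) ≤ X / L ^ A / 2 := by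
    have h1 : ∀ d ∈ DD D p₁, hd d * (8 * d * L ^ 2) ≤ 16 * D * L ^ 2 := by
      intro d hd'
      have h2 := mem_DD hd'
      have h3 : (d : ℝ) ≤ D := by exact_mod_cast h2.2.1
      calc hd d * (8 * d * L ^ 2) ≤ 2 * (8 * D * L ^ 2) := by
            refine mul_le_mul (hd_le_two hHB hd') ?_ (by positivity) (by norm_num)
            gcongr
        _ = 16 * D * L ^ 2 := by ring
    refine (Finset.sum_le_card_nsmul _ _ _ h1).trans ?_
    rw [nsmul_eq_mul]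
    calc ((DD D p₁).card : ℝ) * (16 * D * L ^ 2) ≤ D * (16 * D * L ^ 2) :=
          mul_le_mul_of_nonneg_right (card_DD D p₁) (by positivity)
      _ = 16 * (D : ℝ) ^ 2 * L ^ 2 := by ring
      _ ≤ 16 * √X * L ^ 2 := by gcongr
      _ ≤ X / L ^ A / 2 := by
          rw [div_div, le_div_iff₀ (by positivity)]
          have h2 : √X * √X = X := Real.mul_self_sqrt hX0.le
          calc 16 * √X * L ^ 2 * (L ^ A * 2) = √X * (32 * L ^ (A + 2)) := by ring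
            _ ≤ √X * √X := mul_le_mul_of_nonneg_left hs1 (Real.sqrt_nonneg _)
            _ = X := h2
  -- second part
  have hT1 : 1 ≤ L ^ a := one_le_pow₀ hL1
  obtain ⟨Q, hQ⟩ : ∃ Q, Q = ⌊L ^ a⌋₊ := ⟨_, rfl⟩
  have hQ1 : 1 ≤ Q := by
    rw [hQ]
    exact Nat.le_floor (by simpa using hT1)
  have hQL : L ^ a / 4 ≤ Q := by
    have h1 : L ^ a < Q + 1 := by
      rw [hQ]
      exact Nat.lt_floor_add_one _
    have h2 : (1 : ℝ) ≤ Q := by exact_mod_cast hQ1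
    linarith
  have hsq : L ^ (A + 6) / 2 ≤ √(Q : ℝ) := by
    apply Real.le_sqrt_of_sq_le
    refine le_trans (le_of_eq ?_) hQL
    rw [ha]
    ring
  have hsmall : ∑ q ∈ ((DD D p₁).erase 1).filter (fun q => q ≤ Q), hd q * SP X q ≤
      2 * X / L ^ (A + 4) := by
    rw [hQ]
    refine (bv_small hHB hSB (X := X) (T := L ^ a) (Y := X / L ^ b) (by positivity)
      (by positivity) ?_).trans (le_of_eq ?_)
    · intro q hq hqT hq2 χ hχ
      have := hq₁ q χ hq2 (by rw [← hL]; exact hqT) (hsep D q hq hqT) hχ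
      rwa [← hL] at this
    · rw [hb]
      have h1 : L ^ (2 * a + A + 4) = (L ^ a) ^ 2 * L ^ (A + 4) := by ring
      rw [h1]
      field_simp
  have hlarge : ∑ q ∈ ((DD D p₁).erase 1).filter (fun q => ¬ q ≤ Q), hd q * SP X q ≤
      4 * C2 * X / L ^ (A + 4) := by
    have h1 := hDY' X Q D (by linarith) hQ1 hD
    rw [← hL] at h1
    have h2 : C2 * X * L ^ 2 / √(Q : ℝ) ≤ 2 * C2 * X / L ^ (A + 4) := by
      have h3 : (0 : ℝ) < L ^ (A + 6) / 2 := by positivity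
      calc C2 * X * L ^ 2 / √(Q : ℝ) ≤ C2 * X * L ^ 2 / (L ^ (A + 6) / 2) := by
            gcongr
        _ = 2 * C2 * X / L ^ (A + 4) := by
            have h4 : L ^ (A + 6) = L ^ (A + 4) * L ^ 2 := by ring
            rw [h4]
            field_simp
    refine (bv_large hHB (h1.trans h2)).trans (le_of_eq ?_)
    ring
  have hsum : ∑ q ∈ (DD D p₁).erase 1, hd q * SP X q ≤ (2 + 4 * C2) * X / L ^ (A + 4) := by
    rw [← Finset.sum_filter_add_sum_filter_not ((DD D p₁).erase 1) (fun q => q ≤ Q)]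
    refine (add_le_add hsmall hlarge).trans (le_of_eq ?_)
    ring
  have hHS2 : ∑ e ∈ DD D p₁, hd e ≤ C1 * L ^ 2 := by
    refine (hHS' D p₁).trans ?_
    have h1 : Real.log ((D : ℝ) + 2) ≤ L := by
      rw [hL]
      apply Real.log_le_log (by positivity)
      linarith
    have h2 : 0 ≤ Real.log ((D : ℝ) + 2) := Real.log_nonneg (by linarith)
    gcongr
  have hpart2 : ∑ d ∈ DD D p₁, hd d * ∑ q ∈ d.divisors.erase 1, SP X q ≤ X / L ^ A / 2 := by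
    refine (hS2 D p₁ (SP X) (SP_nonneg X)).trans ?_
    have h0 : 0 ≤ ∑ q ∈ (DD D p₁).erase 1, hd q * SP X q :=
      Finset.sum_nonneg fun q _ => mul_nonneg (hd_nonneg q) (SP_nonneg X q)
    calc (∑ e ∈ DD D p₁, hd e) * ∑ q ∈ (DD D p₁).erase 1, hd q * SP X q
        ≤ (C1 * L ^ 2) * ((2 + 4 * C2) * X / L ^ (A + 4)) :=
          mul_le_mul hHS2 hsum h0 (by positivity)
      _ = (C1 * (2 + 4 * C2)) * X / L ^ (A + 2) := by
          have h4 : L ^ (A + 4) = L ^ (A + 2) * L ^ 2 := by ring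
          rw [h4]
          field_simp
      _ ≤ X / L ^ A / 2 := by
          have h5 : L ^ (A + 2) = L ^ A * L ^ 2 := by ring
          rw [h5, div_div, div_le_div_iff₀ (by positivity) (by positivity)]
          have h6 : 2 * (C1 * (2 + 4 * C2)) ≤ L ^ 2 := by nlinarith
          calc C1 * (2 + 4 * C2) * X * (L ^ A * 2) = (2 * (C1 * (2 + 4 * C2))) * (X * L ^ A) := by
                ring
            _ ≤ L ^ 2 * (X * L ^ A) := mul_le_mul_of_nonneg_right h6 (by positivity)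
            _ = X * (L ^ A * L ^ 2) := by ring
  calc ∑ d ∈ DD D p₁, hd d * SC X d
      ≤ ∑ d ∈ DD D p₁, (hd d * (8 * d * L ^ 2) + hd d * ∑ q ∈ d.divisors.erase 1, SP X q) := by
        refine Finset.sum_le_sum fun d hd' => ?_
        have h1 := mem_DD hd'
        have h2 : (d : ℝ) ≤ D := by exact_mod_cast h1.2.1
        have h3 := hS1 X d (by linarith) h1.1 (by linarith)
        rw [← hL] at h3
        rw [← mul_add]
        exact mul_le_mul_of_nonneg_left h3 (hd_nonneg d)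
    _ = ∑ d ∈ DD D p₁, hd d * (8 * d * L ^ 2) +
        ∑ d ∈ DD D p₁, hd d * ∑ q ∈ d.divisors.erase 1, SP X q := Finset.sum_add_distrib
    _ ≤ X / L ^ A / 2 + X / L ^ A / 2 := add_le_add hpart1 hpart2
    _ = X / L ^ A := by ring

end Pool.Agent.H4.BV
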